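import Pool.Agent.H67.LF.Hlp

/-!
Project LF, row ND: separation.
-/

set_option autoImplicit false

open MeasureTheory ProbabilityTheory Filter Topology Finset
open scoped Nat ENNReal

namespace Pool.Agent.H75.LF

open Pool.Agent.H24.T2 (Pset)
open Pool.Agent.H67.AG (avgP ul Inv TT Fac)
open Pool.Agent.H67.LF (dm_meas int_bdd dm_nonneg dm_le)
open Pool.Agent.H28.LF

/-- dyadic localisation -/
theorem dyadic {x v : ℝ} (hv : 0 < v) (hx : 0 < x) (hxv : x < 2 * v) :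
    ∃ k : ℕ, v / 2 ^ k ≤ x ∧ x < 2 * (v / 2 ^ k) := by
  have hex : ∃ k : ℕ, v / 2 ^ k ≤ x := by
    obtain ⟨k, hk⟩ := pow_unbounded_of_one_lt (v / x) (one_lt_two : (1 : ℝ) < 2)
    refine ⟨k, ?_⟩
    rw [div_le_iff₀ (by positivity)]
    rw [div_lt_iff₀ hx] at hk
    linarith [mul_comm x ((2 : ℝ) ^ k)]
  classical
  refine ⟨Nat.find hex, Nat.find_spec hex, ?_⟩
  rcases Nat.eq_zero_or_pos (Nat.find hex) with h0 | h0
  · rw [h0]
    simpa using hxv
  · obtain ⟨j, hj⟩ := Nat.exists_eq_succ_of_ne_zero h0.ne'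
    have h1 := Nat.find_min hex (m := j) (by omega)
    rw [not_le] at h1
    rw [hj, Nat.succ_eq_add_one, pow_succ]
    have h2 : 2 * (v / (2 ^ j * 2)) = v / 2 ^ j := by
      field_simp
    rw [h2]
    exact h1

theorem dm_eq_ind {Ω : Type} [MeasurableSpace Ω] {q : ℕ} (a a' : Ω → Fin q) :
    dm a a' = {ω | a ω ≠ a' ω}.indicator (fun _ => (1 : ℝ)) := by
  funext ω
  unfold dm
  by_cases h : a ω = a' ω
  · rw [if_pos h, Set.indicator_of_notMem (show ω ∉ {ω | a ω ≠ a' ω} from fun hn => hn h)]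
  · rw [if_neg h, Set.indicator_of_mem (show ω ∈ {ω | a ω ≠ a' ω} from h)]

theorem meas_ne {Ω : Type} [MeasurableSpace Ω] {q : ℕ} {a a' : Ω → Fin q} (ha : Measurable a)
    (ha' : Measurable a') : MeasurableSet {ω | a ω ≠ a' ω} :=
  (measurableSet_eq_fun ha ha').compl

theorem int_dm {Ω : Type} [MeasurableSpace Ω] (P : Measure Ω) {q : ℕ} {a a' : Ω → Fin q}
    (ha : Measurable a) (ha' : Measurable a') :
    ∫ ω, dm a a' ω ∂P = P.real {ω | a ω ≠ a' ω} := by
  rw [dm_eq_ind, integral_indicator_const _ (meas_ne ha ha'), smul_eq_mul, mul_one]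

theorem cond_real {Ω : Type} [MeasurableSpace Ω] (P : Measure Ω) [IsProbabilityMeasure P]
    {A : Set Ω} (hA : MeasurableSet A) (S : Set Ω) :
    (P[|A]).real S = (P.real A)⁻¹ * P.real (A ∩ S) := by
  unfold Measure.real
  rw [cond_apply hA, ENNReal.toReal_mul, ENNReal.toReal_inv]

/-- no small positive frequency of the mismatches -/
theorem gap (h1 : T_ND1) (hC : T_CND) (c : Ux) (K : ℕ) (hK : 0 < K)
    (hLa : ∀ L, K ≤ L → La c.U c.s c.μ c.T c.a (c.Bad K L) Set.univ ≤ c.γ * c.κ / 16)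
    (Q : Measure (c.X × c.X)) [IsProbabilityMeasure Q]
    (hf1 : Fac Q (TT c.T) c.μ c.T Prod.fst) (hf2 : Fac Q (TT c.T) c.μ c.T Prod.snd)
    (mp : MeasurePreserving (TT c.T) Q Q) :
    ∀ᵐ p ∂Q, (Q[dm (fun p => c.a p.1) (fun p => c.a p.2) | Inv (TT c.T) 1]) p ≤ 0 ∨
      c.κ / (10 * K) ≤ (Q[dm (fun p => c.a p.1) (fun p => c.a p.2) | Inv (TT c.T) 1]) p := by
  set f : c.X × c.X → ℝ := dm (fun p => c.a p.1) (fun p => c.a p.2) with hf
  have ha1 : Measurable (fun p : c.X × c.X => c.a p.1) := c.am.comp measurable_fst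
  have ha2 : Measurable (fun p : c.X × c.X => c.a p.2) := c.am.comp measurable_snd
  have hfm : Measurable f := dm_meas ha1 ha2
  have hle : Inv (TT c.T) 1 ≤ (inferInstance : MeasurableSpace (c.X × c.X)) :=
    MeasurableSpace.invariants_le _
  have hκ : 0 < c.κ := by
    unfold Ux.κ
    have := c.γ0
    positivity
  have hKr : (1 : ℝ) ≤ K := by exact_mod_cast hK
  set v : ℝ := c.κ / (20 * K) with hv
  have hv0 : 0 < v := by positivity
  have h2v : 2 * v = c.κ / (10 * K) := by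
    rw [hv]
    field_simp
    ring
  set E : c.X × c.X → ℝ := Q[f | Inv (TT c.T) 1] with hE
  have hEm : Measurable[Inv (TT c.T) 1] E := stronglyMeasurable_condExp.measurable
  have hz : ∀ k : ℕ, ∀ᵐ p ∂Q, ¬ (v / 2 ^ k ≤ E p ∧ E p < 2 * (v / 2 ^ k)) := by
    intro k
    set B : Set (c.X × c.X) := {p | v / 2 ^ k ≤ E p ∧ E p < 2 * (v / 2 ^ k)} with hB
    have hBm : MeasurableSet[Inv (TT c.T) 1] B :=
      (hEm measurableSet_Ici).inter (hEm measurableSet_Iio)
    by_cases h0 : Q.real B = 0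
    · rw [measureReal_eq_zero_iff] at h0
      rw [ae_iff]
      simpa using h0
    · exfalso
      have hpos : 0 < Q.real B := lt_of_le_of_ne measureReal_nonneg (Ne.symm h0)
      obtain ⟨i1, i2, i3, i4⟩ := hC (c.X × c.X) c.X Q (TT c.T) B mp hBm hpos
      have hu : 0 < v / 2 ^ k := by positivity
      have hu2 : v / 2 ^ k ≤ c.κ / (20 * K) :=
        div_le_self hv0.le (one_le_pow₀ one_le_two)
      refine h1 c K (v / 2 ^ k) (Q[|B]) hK hLa hu hu2 (i4 c.μ c.T _ c.erg hf1)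
        (i4 c.μ c.T _ c.erg hf2) i2 ?_
      have h3 := i3 f hfm ⟨1, fun ω => abs_le.2
        ⟨by linarith [dm_nonneg (fun p : c.X × c.X => c.a p.1) (fun p => c.a p.2) ω],
          dm_le _ _ ω⟩⟩
      filter_upwards [h3, ae_cond_mem (μ := Q) (hle B hBm)] with p hp1 hp2
      rw [hp1]
      exact hp2
  filter_upwards [ae_all_iff.2 hz] with p hp
  by_contra hcon
  push Not at hcon
  obtain ⟨hc1, hc2⟩ := hcon
  rw [← h2v] at hc2
  obtain ⟨k, hk⟩ := dyadic hv0 hc1 hc2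
  exact hp k hk

/-- the law of a pair of factor maps -/
theorem pair_law (c : Ux) {Ω : Type} [MeasurableSpace Ω] (P : Measure Ω) [IsProbabilityMeasure P]
    (T : Ω ≃ᵐ Ω) (g g' : Ω → c.X) (mp : MeasurePreserving T P P) (hg : Fac P T c.μ c.T g)
    (hg' : Fac P T c.μ c.T g') :
    ∃ Q : Measure (c.X × c.X), IsProbabilityMeasure Q ∧
      MeasurePreserving (fun ω => (g ω, g' ω)) P Q ∧ MeasurePreserving (TT c.T) Q Q ∧
      Fac Q (TT c.T) c.μ c.T Prod.fst ∧ Fac Q (TT c.T) c.μ c.T Prod.snd := by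
  have hm : Measurable (fun ω => (g ω, g' ω)) := hg.1.measurable.prodMk hg'.1.measurable
  have hpr : MeasurePreserving (fun ω => (g ω, g' ω)) P (P.map fun ω => (g ω, g' ω)) :=
    ⟨hm, rfl⟩
  have hQ : IsProbabilityMeasure (P.map fun ω => (g ω, g' ω)) :=
    Measure.isProbabilityMeasure_map hm.aemeasurable
  refine ⟨P.map fun ω => (g ω, g' ω), hQ, hpr, ⟨(TT c.T).measurable, ?_⟩, ⟨⟨measurable_fst, ?_⟩,
    fun _ => rfl⟩, ⟨⟨measurable_snd, ?_⟩, fun _ => rfl⟩⟩
  · rw [Measure.map_map (TT c.T).measurable hm]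
    have e : (⇑(TT c.T) ∘ fun ω => (g ω, g' ω)) = (fun ω => (g ω, g' ω)) ∘ ⇑T := by
      funext ω
      change (c.T (g ω), c.T (g' ω)) = (g (T ω), g' (T ω))
      rw [hg.2, hg'.2]
    rw [e, ← Measure.map_map hm T.measurable, mp.map_eq]
  · rw [Measure.map_map measurable_fst hm]
    exact hg.1.map_eq
  · rw [Measure.map_map measurable_snd hm]
    exact hg'.1.map_eq

/-- **ND** -/
theorem pf_ND (h1 : T_ND1) (hC : T_CND) (hE : T_EQB) : T_ND := by
  intro c K hK hLa Ω _ P _ T g g' A mp hg hg' hA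
  have hle : Inv T 1 ≤ (inferInstance : MeasurableSpace Ω) := MeasurableSpace.invariants_le _
  have hAm : MeasurableSet A := hle A hA
  set S : Set Ω := {ω | (g ω, g' ω) ∈ c.Eqv} with hS
  set N : Set Ω := {ω | c.a (g ω) ≠ c.a (g' ω)} with hN
  set m₀ : ℝ := c.κ / (10 * K) with hm₀
  have hκ : 0 < c.κ := by
    unfold Ux.κ
    have := c.γ0
    positivity
  have hKr : (1 : ℝ) ≤ K := by exact_mod_cast hK
  have hm0 : 0 < m₀ := by positivity
  by_cases h0 : P.real A = 0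
  · have h2 : P.real (A \ S) = 0 :=
      le_antisymm ((measureReal_mono Set.sdiff_subset).trans h0.le) measureReal_nonneg
    rw [h2, mul_zero]
    exact measureReal_nonneg
  have hpos : 0 < P.real A := lt_of_le_of_ne measureReal_nonneg (Ne.symm h0)
  obtain ⟨i1, i2, -, i4⟩ := hC Ω c.X P T A mp hA hpos
  obtain ⟨Q, hQ, hpr, mpQ, hf1, hf2⟩ := pair_law c (P[|A]) T g g' i2 (i4 c.μ c.T g c.erg hg)
    (i4 c.μ c.T g' c.erg hg')
  have hgap := gap h1 hC c K hK hLa Q hf1 hf2 mpQ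
  obtain ⟨hEm, -, -, hE4⟩ := hE c
  obtain ⟨-, hE5⟩ := hE4 Q mpQ
  set f : c.X × c.X → ℝ := dm (fun p => c.a p.1) (fun p => c.a p.2) with hf
  have ha1 : Measurable (fun p : c.X × c.X => c.a p.1) := c.am.comp measurable_fst
  have ha2 : Measurable (fun p : c.X × c.X => c.a p.2) := c.am.comp measurable_snd
  have hfm : Measurable f := dm_meas ha1 ha2
  have hle2 : Inv (TT c.T) 1 ≤ (inferInstance : MeasurableSpace (c.X × c.X)) :=
    MeasurableSpace.invariants_le _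
  have hnn : 0 ≤ᵐ[Q] Q[f | Inv (TT c.T) 1] := condExp_nonneg (Eventually.of_forall fun ω =>
    dm_nonneg (fun p : c.X × c.X => c.a p.1) (fun p => c.a p.2) ω)
  -- the mean
  have hI : m₀ * Q.real (c.Eqvᶜ) ≤ ∫ p, f p ∂Q := by
    have e1 : ∫ p, (Q[f | Inv (TT c.T) 1]) p ∂Q = ∫ p, f p ∂Q := integral_condExp hle2
    rw [← e1]
    have e2 : ∫ p, (c.Eqvᶜ).indicator (fun _ => m₀) p ∂Q = m₀ * Q.real (c.Eqvᶜ) := by
      rw [integral_indicator_const _ hEm.compl, smul_eq_mul, mul_comm]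
    rw [← e2]
    refine integral_mono_ae ((integrable_const m₀).indicator hEm.compl) integrable_condExp ?_
    filter_upwards [hgap, hE5, hnn] with p hp1 hp2 hp3
    by_cases hp : p ∈ c.Eqv
    · rw [Set.indicator_of_notMem (show p ∉ c.Eqvᶜ from fun hn => hn hp)]
      exact hp3
    · rw [Set.indicator_of_mem (show p ∈ c.Eqvᶜ from hp)]
      rcases hp1 with hp1 | hp1
      · exact absurd (hp2.1 (le_antisymm hp1 hp3)) hp
      · exact hp1
  have hJ : ∫ p, f p ∂Q = Q.real {p : c.X × c.X | c.a p.1 ≠ c.a p.2} := int_dm Q ha1 ha2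
  rw [hJ] at hI
  have k1 : Q.real {p : c.X × c.X | c.a p.1 ≠ c.a p.2} = (P.real A)⁻¹ * P.real (A ∩ N) := by
    rw [← cond_real P hAm, ← hpr.measureReal_preimage (meas_ne ha1 ha2).nullMeasurableSet]
    rfl
  have k2 : Q.real (c.Eqvᶜ) = (P.real A)⁻¹ * P.real (A \ S) := by
    rw [Set.sdiff_eq, ← cond_real P hAm, ← hpr.measureReal_preimage hEm.compl.nullMeasurableSet]
    rfl
  rw [k1, k2] at hI
  have h3 : P.real A * (m₀ * ((P.real A)⁻¹ * P.real (A \ S))) ≤
      P.real A * ((P.real A)⁻¹ * P.real (A ∩ N)) := mul_le_mul_of_nonneg_left hI hpos.le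
  have h4 : P.real A * (m₀ * ((P.real A)⁻¹ * P.real (A \ S))) = m₀ * P.real (A \ S) := by
    field_simp
  have h5 : P.real A * ((P.real A)⁻¹ * P.real (A ∩ N)) = P.real (A ∩ N) := by
    field_simp
  rw [h4, h5] at h3
  exact h3

end Pool.Agent.H75.LF
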