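import Pool.Agent.H75.LF.ND

/-!
Project LF, row TOP: the top of the tower.
-/

set_option autoImplicit false

open MeasureTheory ProbabilityTheory Filter Topology Finset
open scoped Nat ENNReal

namespace Pool.Agent.H75.LF

open Pool.Agent.H24.T2 (Pset)
open Pool.Agent.H67.AG (avgP ul Inv TT JJ InvZ tow SA Fac)
open Pool.Agent.H67.LF (dm_meas int_bdd dm_nonneg dm_le)
open Pool.Agent.H28.LF

/-- ergodicity: the conditional expectation on the invariant sets is the mean -/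
theorem erg_condExp {X : Type} [MeasurableSpace X] (μ : Measure X) [IsProbabilityMeasure μ]
    (T : X ≃ᵐ X) (he : Ergodic T μ) (f : X → ℝ) (hf : Integrable f μ) :
    (μ[f | Inv T 1]) =ᵐ[μ] fun _ => ∫ x, f x ∂μ := by
  have hle : Inv T 1 ≤ (inferInstance : MeasurableSpace X) := MeasurableSpace.invariants_le _
  refine (ae_eq_condExp_of_forall_setIntegral_eq hle hf
    (fun s _ _ => (integrable_const _).integrableOn) (fun s hs _ => ?_)
    stronglyMeasurable_const.aestronglyMeasurable).symm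
  obtain ⟨h1, h2⟩ := MeasurableSpace.measurableSet_invariants.1 hs
  rw [Function.iterate_one] at h2
  rcases he.toPreErgodic.prob_eq_zero_or_one h1 h2 with h | h
  · rw [setIntegral_measure_zero _ h, setIntegral_measure_zero _ h]
  · have hc : μ sᶜ = 0 := (prob_compl_eq_zero_iff h1).2 h
    have hae : s =ᵐ[μ] Set.univ := by
      rw [ae_eq_univ]
      exact hc
    rw [setIntegral_congr_set hae, setIntegral_congr_set hae, setIntegral_univ, setIntegral_univ,
      integral_const, probReal_univ, one_smul]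

theorem vv_meas (c : Ux) (Z : SA c.X) : Measurable (c.vv Z) := by
  unfold Ux.vv
  have h : ∀ b, Measurable (c.wt Z b) := fun b =>
    stronglyMeasurable_condExp.measurable.mono Z.2 le_rfl
  exact measurable_const.max (measurable_const.min
    (measurable_const.sub (Finset.measurable_sum _ fun b _ => (h b).pow_const 2)))

theorem vv_01 (c : Ux) (Z : SA c.X) (x : c.X) : 0 ≤ c.vv Z x ∧ c.vv Z x ≤ 1 := by
  unfold Ux.vv
  exact ⟨le_max_left _ _, max_le zero_le_one (min_le_left _ _)⟩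

/-- the mean of the conditional probability of a mismatch is small at the top of the tower -/
theorem small_V (hR : T_RSM) (hS : T_STC) (hL : T_LAB) (c : Ux) (K : ℕ) (hK : 0 < K)
    (hLa : ∀ L, K ≤ L → La c.U c.s c.μ c.T c.a (c.Bad K L) Set.univ ≤ c.γ * c.κ / 16) :
    ∫ x, c.vv (tow c.μ c.T (21 * K)) x ∂c.μ < c.κ / (10 * K) := by
  by_contra hcon
  rw [not_lt] at hcon
  have hγ0 := c.γ0
  have hκ : 0 < c.κ := by
    unfold Ux.κ
    positivity
  have hKr : (1 : ℝ) ≤ K := by exact_mod_cast hK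
  have hLAB := hL c.X c.μ c.T c.U c.s c.q 0 (fun _ => ∅) c.a c.a Set.univ
    c.erg.toMeasurePreserving c.hU c.sv c.am c.am (@MeasurableSet.univ _ (Inv c.T 1))
  have hγ1 : c.γ ≤ 1 := c.hγ.trans hLAB.2.2.1
  set V : ℝ := ∫ x, c.vv (tow c.μ c.T (21 * K)) x ∂c.μ with hV
  set u : ℝ := c.κ / (20 * K) with hu
  have hu0 : 0 < u := by positivity
  have h2u : 2 * u = c.κ / (10 * K) := by
    rw [hu]
    field_simp
    ring
  rw [← h2u] at hcon
  have hV0 : 0 < V := by linarith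
  set th : ℝ := u / V with hth
  have hth0 : 0 ≤ th := by positivity
  have hth1 : th ≤ 1 := by
    rw [hth, div_le_one hV0]
    linarith
  have hmean : ∫ x, th * c.vv (tow c.μ c.T (21 * K)) x ∂c.μ = u := by
    rw [integral_const_mul, ← hV, hth, div_mul_cancel₀ _ hV0.ne']
  set f : c.X → ℝ := fun x => th * c.vv (tow c.μ c.T (21 * K)) x with hf
  have hfm : Measurable f := measurable_const.mul (vv_meas c _)
  have hf01 : ∀ x, 0 ≤ f x ∧ f x ≤ 1 := fun x =>
    ⟨mul_nonneg hth0 (vv_01 c _ x).1, mul_le_one₀ hth1 (vv_01 c _ x).1 (vv_01 c _ x).2⟩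
  have hfi : Integrable f c.μ := int_bdd hfm 1 fun x =>
    abs_le.2 ⟨by linarith [(hf01 x).1], (hf01 x).2⟩
  have hce : ∀ᵐ x ∂c.μ, (c.μ[f | Inv c.T 1]) x ≤ 2 * u := by
    filter_upwards [erg_condExp c.μ c.T c.erg f hfi] with x hx
    rw [hx, hmean]
    linarith
  have hDu : ((20 * K : ℕ) : ℝ) * u ≤ c.γ ^ 2 / 16384 := by
    rw [hu]
    push_cast
    have : 20 * (K : ℝ) * (c.κ / (20 * K)) = c.κ := by field_simp
    rw [this]
    exact le_refl _
  have hstc := hS c.X c.μ c.T c.U f (20 * K) c.γ u c.erg.toMeasurePreserving c.hU hfm hf01 hγ0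
    hγ1 hu0.le hDu hce
  rw [hmean] at hstc
  have hrsm := hR c K (20 * K) (21 * K) th hK (by omega) (by omega) hth0 hth1
  rw [hmean] at hrsm
  have h16 := hLa (20 * K) (by omega)
  push_cast at hrsm hstc
  have hS' : 2 * ((20 * (K : ℝ)) - K) * ∑ d ∈ Icc 1 (20 * K), Cd c.U c.μ c.T f Set.univ d ≤
      19 * K * (c.γ / 8 * u) := by
    have := mul_le_mul_of_nonneg_left hstc (show (0 : ℝ) ≤ 19 * K by positivity)
    linarith
  have h1 : c.γ * (17 * K * u) ≤ ds c.U c.s * ((20 * (K : ℝ)) - 3 * K) * u := by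
    have h3 : 0 ≤ 17 * (K : ℝ) * u := by positivity
    have := mul_le_mul_of_nonneg_right c.hγ h3
    linarith
  have h2 : c.γ * (17 * K * u) ≤ c.γ * (c.κ / 8 + 19 * K * u / 8) := by
    have h4 : ds c.U c.s * ((20 * (K : ℝ)) - 3 * K) * u ≤
      2 * La c.U c.s c.μ c.T c.a (c.Bad K (20 * K)) Set.univ +
      2 * ((20 * (K : ℝ)) - K) * ∑ d ∈ Icc 1 (20 * K), Cd c.U c.μ c.T f Set.univ d := hrsm
    nlinarith [h1, h4, hS', h16]
  have h3 := le_of_mul_le_mul_left h2 hγ0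
  have h4 : (K : ℝ) * u = c.κ / 20 := by
    rw [hu]
    field_simp
  nlinarith [h3, h4]

/-- **TOP** -/
theorem pf_TOP (hN : T_ND) (hR : T_RSM) (hS : T_STC) (hJ : T_JV) (hL : T_LAB) (hE : T_EQB)
    (hJ2 : Pool.Agent.H67.AG.T_J2) (hJ3 : Pool.Agent.H67.AG.T_J3)
    (hTW : Pool.Agent.H67.AG.T_TW) : T_TOP := by
  intro c
  have hγ0 := c.γ0
  have hκ : 0 < c.κ := by
    unfold Ux.κ
    positivity
  obtain ⟨K, hK, hLa⟩ := c.rel (c.γ * c.κ / 16) (by positivity)
  have hKr : (1 : ℝ) ≤ K := by exact_mod_cast hK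
  refine ⟨21 * K, ?_⟩
  have hV := small_V hR hS hL c K hK hLa
  rw [hJ c (tow c.μ c.T (21 * K))] at hV
  obtain ⟨p1, p2, p3, -⟩ := hJ2 c.X c.μ (tow c.μ c.T (21 * K))
  obtain ⟨p4, -⟩ := hJ3 c.X c.μ c.T (tow c.μ c.T (21 * K)) c.erg.toMeasurePreserving
    (hTW c.X c.μ c.T c.erg (21 * K))
  have hsep := hN c K hK hLa (c.X × c.X) (JJ c.μ (tow c.μ c.T (21 * K))) (TT c.T) Prod.fst
    Prod.snd Set.univ p4 ⟨p2, fun _ => rfl⟩ ⟨p3, fun _ => rfl⟩
    (@MeasurableSet.univ _ (Inv (TT c.T) 1))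
  rw [Set.univ_inter] at hsep
  have hEm := (hE c).1
  have hset : (Set.univ \ {ω : c.X × c.X | (ω.1, ω.2) ∈ c.Eqv}) = c.Eqvᶜ := by
    ext ω
    simp
  rw [hset] at hsep
  have hm0 : 0 < c.κ / (10 * K) := by positivity
  have h1 : c.κ / (10 * K) * (JJ c.μ (tow c.μ c.T (21 * K))).real (c.Eqvᶜ) <
      c.κ / (10 * K) * 1 := by
    rw [mul_one]
    exact lt_of_le_of_lt hsep hV
  have h2 := lt_of_mul_lt_mul_left h1 hm0.le
  rw [probReal_compl_eq_one_sub hEm] at h2
  change 0 < (JJ c.μ (tow c.μ c.T (21 * K))).real c.Eqv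
  linarith

end Pool.Agent.H75.LF
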